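import Mathlib

/-!
# Simultaneous primality of `k² + k - 1` and `π(kn) + δ` (MP_783c7d_nt)

Q1 asks whether for each `δ ∈ {-1, 0, 1}` and every `n > n_δ` (`n_0 = 5`, `n_1 = 3`, `n_{-1} = 6`)
there is `1 ≤ k ≤ n - 1` such that `k² + k - 1` and `π(kn) + δ` are both prime. We show that among
the integers `n` with `N < n ≤ M` (for any `M` and any `N ≥ n_δ`) this holds for at least
`π(π(3M) + δ) - π(π(3N) + δ)`, and hence for at least `x / log² x` of the integers `n_δ < n ≤ x` if
`x` is large. (`k = 3` is used: `3² + 3 - 1 = 11` is prime, and `π(3n)` grows by at most `1` from `n`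
to `n + 1`, so that it takes all values.)
-/

set_option autoImplicit false

open Finset

namespace Pool.Agent.Results.MP_783c7d_nt.ManyGoodIntegers

/-- The threshold `n_δ`: `n_0 = 5`, `n_1 = 3`, `n_{-1} = 6`. -/
def threshold (δ : ℤ) : ℕ := if δ = 0 then 5 else if δ = 1 then 3 else 6

/-- `n` has the property asked for in Q1: there is an integer `k` with `1 ≤ k ≤ n - 1` such that
`k² + k - 1` and `π(kn) + δ` are both prime. -/
def Good (δ : ℤ) (n : ℕ) : Prop :=
  ∃ k : ℕ, 1 ≤ k ∧ k ≤ n - 1 ∧ Nat.Prime (k ^ 2 + k - 1) ∧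
    ∃ q : ℕ, q.Prime ∧ (q : ℤ) = (Nat.primeCounting (k * n) : ℤ) + δ

open Classical in
/-- The number of integers `n` with `N < n ≤ M` which have the property asked for in Q1. -/
noncomputable def goodCount (δ : ℤ) (N M : ℕ) : ℕ :=
  ((Finset.Ioc N M).filter fun n => Good δ n).card

/-- `π(3n)` grows by at most one. -/
theorem step (n : ℕ) (hn : 1 ≤ n) :
    Nat.primeCounting (3 * (n + 1)) ≤ Nat.primeCounting (3 * n) + 1 := by
  have h1 : 3 * (n + 1) = 3 * n + 1 + 1 + 1 := by ring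
  have h3 : ¬ Nat.Prime (3 * n + 1 + 1 + 1) := by
    intro h
    have h4 : 3 ∣ 3 * n + 1 + 1 + 1 := ⟨n + 1, by ring⟩
    have := (Nat.prime_dvd_prime_iff_eq Nat.prime_three h).1 h4
    omega
  have h2 : ¬ (Nat.Prime (3 * n + 1) ∧ Nat.Prime (3 * n + 1 + 1)) := by
    rintro ⟨ha, hb⟩
    rcases Nat.even_or_odd (3 * n + 1) with he | ho
    · have := (Nat.Prime.even_iff ha).1 he
      omega
    · have he : Even (3 * n + 1 + 1) := ho.add_one
      have := (Nat.Prime.even_iff hb).1 he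
      omega
  rw [h1]
  simp only [Nat.primeCounting, Nat.primeCounting', Nat.count_succ, h3, if_false, add_zero]
  by_cases ha : Nat.Prime (3 * n + 1)
  · have hb : ¬ Nat.Prime (3 * n + 1 + 1) := fun hb => h2 ⟨ha, hb⟩
    simp [ha, hb]
  · by_cases hb : Nat.Prime (3 * n + 1 + 1)
    · simp [ha, hb]
    · simp [ha, hb]

/-- `π(3n)`, `1 ≤ n ≤ x`, takes all values between `2` and `π(3x)`. -/
theorem surj (x m : ℕ) (hm : 2 ≤ m) (hx : m ≤ Nat.primeCounting (3 * x)) :
    ∃ n, 1 ≤ n ∧ n ≤ x ∧ Nat.primeCounting (3 * n) = m := by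
  classical
  have hex : ∃ n, m ≤ Nat.primeCounting (3 * n) := ⟨x, hx⟩
  have h1 := Nat.find_spec hex
  have h2 : Nat.find hex ≤ x := Nat.find_min' hex hx
  have h3 : 1 ≤ Nat.find hex := by
    by_contra h
    have h0 : Nat.find hex = 0 := by omega
    rw [h0] at h1
    simp at h1
    omega
  refine ⟨Nat.find hex, h3, h2, le_antisymm ?_ h1⟩
  rcases Nat.eq_or_lt_of_le h3 with h | h
  · rw [← h]
    have : Nat.primeCounting (3 * 1) = 2 := by decide
    omega
  · obtain ⟨j, hj⟩ : ∃ j, Nat.find hex = j + 1 := ⟨Nat.find hex - 1, by omega⟩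
    have h4 : ¬ m ≤ Nat.primeCounting (3 * j) := Nat.find_min hex (by omega)
    have h5 := step j (by omega)
    rw [hj]
    omega

theorem threshold_ge (δ : ℤ) : 3 ≤ threshold δ := by
  unfold threshold
  split_ifs <;> norm_num

/-- The main inequality. -/
theorem count_ge (δ : ℤ) (hδ : δ = -1 ∨ δ = 0 ∨ δ = 1) (N M : ℕ) (hN : threshold δ ≤ N) :
    Nat.primeCounting ((Nat.primeCounting (3 * M) : ℤ) + δ).toNat ≤
      Nat.primeCounting ((Nat.primeCounting (3 * N) : ℤ) + δ).toNat + goodCount δ N M := by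
  classical
  have h3N : 3 ≤ N := (threshold_ge δ).trans hN
  have h4 : 4 ≤ Nat.primeCounting (3 * N) := by
    have h1 : Nat.primeCounting (3 * 3) = 4 := by decide
    rw [← h1]
    exact Nat.monotone_primeCounting (Nat.mul_le_mul_left 3 h3N)
  set a : ℕ := ((Nat.primeCounting (3 * N) : ℤ) + δ).toNat with ha
  set b : ℕ := ((Nat.primeCounting (3 * M) : ℤ) + δ).toNat with hb
  -- for each prime `a < q ≤ b` choose `n`
  have key : ∀ q : ℕ, a < q → q ≤ b →
      ∃ n, N < n ∧ n ≤ M ∧ (q : ℤ) = (Nat.primeCounting (3 * n) : ℤ) + δ := by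
    intro q haq hqb
    obtain ⟨n, h1, h2, h3⟩ := surj M ((q : ℤ) - δ).toNat (by omega) (by omega)
    refine ⟨n, ?_, h2, by omega⟩
    by_contra hcon
    have hmono := Nat.monotone_primeCounting (Nat.mul_le_mul_left 3 (show n ≤ N by omega))
    omega
  choose! g hg1 hg2 hg3 using key
  set A : Finset ℕ := (Finset.Ioc a b).filter Nat.Prime with hA
  have hAmem : ∀ q ∈ A, q.Prime ∧ a < q ∧ q ≤ b := by
    intro q hq
    simp only [hA, Finset.mem_filter, Finset.mem_Ioc] at hq
    exact ⟨hq.2, hq.1.1, hq.1.2⟩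
  have hcard : A.card ≤ goodCount δ N M := by
    unfold goodCount
    apply Finset.card_le_card_of_injOn g
    · intro q hq
      obtain ⟨p, c, d⟩ := hAmem q hq
      simp only [Finset.coe_filter, Set.mem_ofPred_eq, Finset.mem_Ioc]
      have h1 := hg1 q c d
      exact ⟨⟨h1, hg2 q c d⟩, 3, by norm_num, by omega, by norm_num, q, p, hg3 q c d⟩
    · intro q hq q' hq' he
      obtain ⟨_, b, c⟩ := hAmem q hq
      obtain ⟨_, b', c'⟩ := hAmem q' hq'
      have h1 := hg3 q b c
      have h2 := hg3 q' b' c'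
      rw [he] at h1
      omega
  have hpi : ∀ m : ℕ, Nat.primeCounting m = (Nat.primesLE m).card := by
    intro m
    rw [Nat.primesLE_eq_filter_range, Nat.primeCounting, Nat.primeCounting',
      Nat.count_eq_card_filter_range]
  have hsub : Nat.primesLE b ⊆ Nat.primesLE a ∪ A := by
    intro p hp
    rw [Nat.mem_primesLE] at hp
    simp only [Finset.mem_union, hA, Finset.mem_filter, Finset.mem_Ioc, Nat.mem_primesLE]
    by_cases h7 : p ≤ a
    · exact Or.inl ⟨h7, hp.2⟩
    · exact Or.inr ⟨⟨by omega, hp.1⟩, hp.2⟩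
  rw [hpi, hpi]
  calc (Nat.primesLE b).card ≤ (Nat.primesLE a ∪ A).card := Finset.card_le_card hsub
    _ ≤ (Nat.primesLE a).card + A.card := Finset.card_union_le _ _
    _ ≤ (Nat.primesLE a).card + goodCount δ N M := by omega

theorem val3 (δ : ℤ) (hδ : δ = -1 ∨ δ = 0 ∨ δ = 1) :
    Nat.primeCounting ((Nat.primeCounting (3 * threshold δ) : ℤ) + δ).toNat = 3 := by
  rcases hδ with rfl | rfl | rfl
  · decide
  · decide
  · decide

/-- Chebyshev's lower bound, from Mathlib. -/
theorem pi_lower : ∃ N : ℕ, ∀ n : ℕ, N ≤ n →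
    (0.65 : ℝ) * n ≤ (Nat.primeCounting n : ℝ) * Real.log n := by
  have h := Real.isLittleO_log_id_atTop.bound (c := 0.03) (by norm_num)
  obtain ⟨T, hT⟩ := Filter.eventually_atTop.1 h
  refine ⟨⌈max T 10⌉₊, fun n hn => ?_⟩
  have hn' : max T 10 ≤ (n : ℝ) := (Nat.le_ceil _).trans (by exact_mod_cast hn)
  have h1 : T ≤ (n : ℝ) + 1 := (le_max_left _ _).trans (by linarith)
  have h10 : (10 : ℝ) ≤ n := (le_max_right _ _).trans hn'
  have h2 := hT ((n : ℝ) + 1) h1
  simp only [id, Real.norm_eq_abs] at h2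
  have h3 : Real.log ((n : ℝ) + 1) ≤ 0.03 * ((n : ℝ) + 1) := by
    have := le_abs_self (Real.log ((n : ℝ) + 1))
    rw [abs_of_nonneg (show (0 : ℝ) ≤ (n : ℝ) + 1 by positivity)] at h2
    linarith
  have h4 := Chebyshev.psi_ge n
  have h5 := Chebyshev.psi_le_primeCounting_mul_log n
  have h6 := Real.log_two_gt_d9
  nlinarith

/-- The number of good `n_δ < n ≤ x` is at least `x / log² x` for large `x`. -/
theorem asym (δ : ℤ) (hδ : δ = -1 ∨ δ = 0 ∨ δ = 1) :
    ∃ X : ℕ, ∀ x : ℕ, X ≤ x → (x : ℝ) / Real.log x ^ 2 ≤ goodCount δ (threshold δ) x := by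
  obtain ⟨N, hN⟩ := pi_lower
  have hlog := (Real.isLittleO_pow_log_id_atTop (n := 2)).bound (c := 0.001) (by norm_num)
  have hlog2 := Real.tendsto_log_atTop.eventually_ge_atTop (max (N : ℝ) 100)
  obtain ⟨T, hT⟩ := Filter.eventually_atTop.1 (hlog.and hlog2)
  refine ⟨⌈max T (max 10 N)⌉₊, fun x hx => ?_⟩
  have hx' : max T (max 10 N) ≤ (x : ℝ) := (Nat.le_ceil _).trans (by exact_mod_cast hx)
  have hx10 : (10 : ℝ) ≤ x := ((le_max_left _ _).trans (le_max_right _ _)).trans hx'
  have hxN : (N : ℝ) ≤ x := ((le_max_right _ _).trans (le_max_right _ _)).trans hx'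
  obtain ⟨ha, hb⟩ := hT (x : ℝ) ((le_max_left _ _).trans hx')
  have hL100 : (100 : ℝ) ≤ Real.log x := (le_max_right _ _).trans hb
  have hLN : (N : ℝ) ≤ Real.log x := (le_max_left _ _).trans hb
  simp only [id, Real.norm_eq_abs] at ha
  have hL2 : Real.log x ^ 2 ≤ 0.001 * x := by
    rw [abs_of_nonneg (by positivity), abs_of_nonneg (by positivity)] at ha
    exact ha
  set L : ℝ := Real.log x with hL
  have hLpos : 0 < L := by linarith
  -- `log (4x) ≤ 1.02 L`
  have hlog4 : Real.log (4 * x) ≤ 1.02 * L := by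
    rw [Real.log_mul (by norm_num) (by positivity)]
    have : Real.log 4 = 2 * Real.log 2 := by
      rw [show (4 : ℝ) = 2 ^ 2 by norm_num, Real.log_pow]
      push_cast
      ring
    have := Real.log_two_lt_d9
    linarith
  -- the first application
  have h1 := hN (3 * x) (by
    have : N ≤ x := by exact_mod_cast hxN
    omega)
  have h2 : Real.log ((3 * x : ℕ) : ℝ) ≤ 1.02 * L := by
    refine le_trans (Real.log_le_log (by push_cast; positivity) ?_) hlog4
    push_cast
    linarith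
  have h3 : (0.65 : ℝ) * (3 * x) ≤ (Nat.primeCounting (3 * x) : ℝ) * (1.02 * L) := by
    have h3' : (0.65 : ℝ) * (3 * x) ≤ (Nat.primeCounting (3 * x) : ℝ) *
        Real.log ((3 * x : ℕ) : ℝ) := by
      have := h1
      push_cast at this ⊢
      linarith
    exact h3'.trans (mul_le_mul_of_nonneg_left h2 (by positivity))
  set P : ℕ := Nat.primeCounting (3 * x) with hP
  set m : ℕ := ((P : ℤ) + δ).toNat with hm
  have hPm : (P : ℝ) - 1 ≤ m := by
    have : (P : ℤ) - 1 ≤ m := by omega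
    exact_mod_cast this
  have hm1 : 1.9 * x ≤ (m : ℝ) * L := by
    have : (1000 : ℝ) * L ≤ x * 1 := by nlinarith
    have h4 : ((P : ℝ) - 1) * L ≤ (m : ℝ) * L := mul_le_mul_of_nonneg_right hPm hLpos.le
    nlinarith
  have hmL : (1900 : ℝ) * L ≤ m := by
    have : (1900 : ℝ) * L * L ≤ (m : ℝ) * L := by nlinarith
    exact le_of_mul_le_mul_right this hLpos
  have hPle : P ≤ 3 * x + 1 := by
    rw [hP, Nat.primeCounting, Nat.primeCounting']
    exact Nat.count_le _
  have hm4 : (m : ℝ) ≤ 4 * x := by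
    have h5 : (m : ℤ) ≤ 3 * x + 2 := by omega
    have h6 : (m : ℝ) ≤ 3 * x + 2 := by exact_mod_cast h5
    linarith
  have h7 := hN m (by
    have : (N : ℝ) ≤ m := by linarith
    exact_mod_cast this)
  have h8 : Real.log (m : ℝ) ≤ 1.02 * L := by
    refine le_trans (Real.log_le_log ?_ hm4) hlog4
    linarith
  have h9 : (0.65 : ℝ) * m ≤ (Nat.primeCounting m : ℝ) * (1.02 * L) :=
    h7.trans (mul_le_mul_of_nonneg_left h8 (by positivity))
  have h10 := count_ge δ hδ (threshold δ) x le_rfl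
  rw [← hP, ← hm, val3 δ hδ] at h10
  have h11 : (Nat.primeCounting m : ℝ) ≤ 3 + goodCount δ (threshold δ) x := by exact_mod_cast h10
  rw [div_le_iff₀ (by positivity)]
  have h12 : (0.65 : ℝ) * (1.9 * x) ≤ (Nat.primeCounting m : ℝ) * (1.02 * L ^ 2) := by
    calc (0.65 : ℝ) * (1.9 * x) ≤ 0.65 * ((m : ℝ) * L) := by linarith
      _ = (0.65 * m) * L := by ring
      _ ≤ ((Nat.primeCounting m : ℝ) * (1.02 * L)) * L :=
          mul_le_mul_of_nonneg_right h9 hLpos.le
      _ = _ := by ring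
  have h13 : (Nat.primeCounting m : ℝ) * (1.02 * L ^ 2) ≤
      (3 + (goodCount δ (threshold δ) x : ℝ)) * (1.02 * L ^ 2) :=
    mul_le_mul_of_nonneg_right h11 (by positivity)
  nlinarith

/-- For each `δ ∈ {-1, 0, 1}`: if `N ≥ n_δ`, then at least `π(π(3M) + δ) - π(π(3N) + δ)` of the
integers `N < n ≤ M` have the property asked for in Q1. In particular at least `x / log² x` of the
integers `n_δ < n ≤ x` have it, for all large `x`. -/
theorem result (δ : ℤ) (hδ : δ = -1 ∨ δ = 0 ∨ δ = 1) :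
    (∀ N M : ℕ, threshold δ ≤ N →
      Nat.primeCounting ((Nat.primeCounting (3 * M) : ℤ) + δ).toNat ≤
        Nat.primeCounting ((Nat.primeCounting (3 * N) : ℤ) + δ).toNat + goodCount δ N M) ∧
    ∃ X : ℕ, ∀ x : ℕ, X ≤ x → (x : ℝ) / Real.log x ^ 2 ≤ goodCount δ (threshold δ) x :=
  ⟨count_ge δ hδ, asym δ hδ⟩

end Pool.Agent.Results.MP_783c7d_nt.ManyGoodIntegers
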